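import Mathlib

/-!
# MP_6870a6_co, Q1: the maxima of the mirror Markov tree are pairwise distinct
-/

set_option autoImplicit false

namespace Pool.Agent.Results.MP_6870a6_co.MirrorTree

open Polynomial LaurentPolynomial

/-- the symmetrization `X(q) = x(q) x(1/q)` -/
noncomputable def symm (x : ℤ[X]) : ℤ[T;T⁻¹] := toLaurent x * invert (toLaurent x)

/-- `c' = q^{deg c} (q^s Y + C) / x~`, as an exact division. Here `x~ = x.reverse`. -/
def IsMut (x y c : ℤ[X]) (s : ℤ) (c' : ℤ[X]) : Prop :=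
  toLaurent (c' * x.reverse) = T (c.natDegree : ℤ) * (T s * symm y + symm c)

open Classical in
/-- the polynomial `q^{deg c} (q^s Y + C) / x~` (and `0` if the division is not exact) -/
noncomputable def mutate (x y c : ℤ[X]) (s : ℤ) : ℤ[X] :=
  if h : ∃ c' : ℤ[X], IsMut x y c s c' then h.choose else 0

/-- A triple together with the sign of its entering edge. -/
structure Vtx where
  a : ℤ[X]
  b : ℤ[X]
  c : ℤ[X]
  s : ℤ

/-- the child of a vertex: `false` is the left child, `true` the right child -/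
noncomputable def child (v : Vtx) : Bool → Vtx
  | false => ⟨v.a, v.c, mutate v.b v.a v.c v.s, v.s⟩
  | true => ⟨v.b, v.c, mutate v.a v.b v.c (-v.s), -v.s⟩

/-- the vertex `t₀ = (1, 1+q, 1+2q+2q²)`, entered with sign `+1` -/
noncomputable def root : Vtx := ⟨1, 1 + X, 1 + 2 * X + 2 * X ^ 2, 1⟩

/-- the vertices of the tree below `t₀`, addressed by the list of left/right moves from `t₀` -/
noncomputable def vertex (w : List Bool) : Vtx := w.foldl child root

/-- The vertex set of the whole tree: the chain `(1,1,1) → (1,1,1+q)` on top of `t₀`. -/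
inductive Node
  | top : Node
  | second : Node
  | below (w : List Bool) : Node

/-- the triple at a vertex -/
noncomputable def triple : Node → ℤ[X] × ℤ[X] × ℤ[X]
  | Node.top => (1, 1, 1)
  | Node.second => (1, 1, 1 + X)
  | Node.below w => ((vertex w).a, (vertex w).b, (vertex w).c)

/-- the maximum of the triple at a vertex -/
noncomputable def maxOf (v : Node) : ℤ[X] := (triple v).2.2

/-! ### Symmetrizations -/

lemma invert_invert' (x : ℤ[T;T⁻¹]) : invert (invert x) = x := by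
  ext n; simp

lemma invert_symm (x : ℤ[X]) : invert (symm x) = symm x := by
  unfold symm
  rw [map_mul, invert_invert', mul_comm]

lemma symm_ne {x : ℤ[X]} (hx : x ≠ 0) : symm x ≠ 0 := by
  unfold symm
  have h1 : toLaurent x ≠ 0 := (toLaurent_ne_zero).2 hx
  have h2 : invert (toLaurent x) ≠ 0 := by simpa using h1
  exact mul_ne_zero h1 h2

/-! ### The product of leading and constant coefficient -/

/-- leading coefficient times constant coefficient -/
noncomputable def Lc (x : ℤ[X]) : ℤ := x.leadingCoeff * x.coeff 0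

lemma rev_natDegree {x : ℤ[X]} (h : x.coeff 0 ≠ 0) : x.reverse.natDegree = x.natDegree := by
  have : x.natTrailingDegree = 0 := natTrailingDegree_eq_zero.2 (Or.inr h)
  rw [reverse_natDegree, this, Nat.sub_zero]

lemma rev_lead {x : ℤ[X]} (h : x.coeff 0 ≠ 0) : x.reverse.leadingCoeff = x.coeff 0 := by
  have : x.natTrailingDegree = 0 := natTrailingDegree_eq_zero.2 (Or.inr h)
  rw [reverse_leadingCoeff, trailingCoeff, this]

lemma pal_natDegree {x : ℤ[X]} (h : x.coeff 0 ≠ 0) :
    (x * x.reverse).natDegree = 2 * x.natDegree := by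
  have hx : x ≠ 0 := by rintro rfl; simp at h
  have hr : x.reverse ≠ 0 := by simpa using hx
  rw [natDegree_mul hx hr, rev_natDegree h]; ring

lemma pal_lead {x : ℤ[X]} (h : x.coeff 0 ≠ 0) : (x * x.reverse).leadingCoeff = Lc x := by
  rw [leadingCoeff_mul, rev_lead h]; rfl

lemma pal_zero (x : ℤ[X]) : (x * x.reverse).coeff 0 = Lc x := by
  rw [mul_coeff_zero, coeff_zero_reverse, mul_comm]; rfl

/-- the numerator -/
noncomputable def N (k : ℕ) (y c : ℤ[X]) : ℤ[X] := X ^ k * (y * y.reverse) + c * c.reverse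

lemma N_zero_pos {k : ℕ} (hk : 1 ≤ k) (y c : ℤ[X]) : (N k y c).coeff 0 = Lc c := by
  unfold N
  rw [coeff_add, pal_zero, coeff_X_pow_mul', if_neg (by omega), zero_add]

lemma N_zero_zero (y c : ℤ[X]) : (N 0 y c).coeff 0 = Lc y + Lc c := by
  unfold N
  rw [pow_zero, one_mul, coeff_add, pal_zero, pal_zero]

lemma N_le {k : ℕ} {y c : ℤ[X]} (hy : y.coeff 0 ≠ 0) (hc : c.coeff 0 ≠ 0)
    (h : k + 2 * y.natDegree ≤ 2 * c.natDegree) : (N k y c).natDegree ≤ 2 * c.natDegree := by
  unfold N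
  refine (natDegree_add_le _ _).trans ?_
  rw [pal_natDegree hc]
  refine max_le ?_ le_rfl
  refine natDegree_mul_le.trans ?_
  rw [natDegree_X_pow, pal_natDegree hy]
  exact h

lemma N_top_lt {k : ℕ} {y c : ℤ[X]} (hy : y.coeff 0 ≠ 0) (hc : c.coeff 0 ≠ 0)
    (h : k + 2 * y.natDegree < 2 * c.natDegree) : (N k y c).coeff (2 * c.natDegree) = Lc c := by
  unfold N
  rw [coeff_add, ← pal_lead hc, leadingCoeff, pal_natDegree hc, coeff_X_pow_mul', if_pos (by omega),
    coeff_eq_zero_of_natDegree_lt, zero_add]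
  rw [pal_natDegree hy]; omega

lemma N_top_eq {k : ℕ} {y c : ℤ[X]} (hy : y.coeff 0 ≠ 0) (hc : c.coeff 0 ≠ 0)
    (h : k + 2 * y.natDegree = 2 * c.natDegree) :
    (N k y c).coeff (2 * c.natDegree) = Lc y + Lc c := by
  unfold N
  have : 2 * c.natDegree - k = 2 * y.natDegree := by omega
  rw [coeff_add, ← pal_lead hc, leadingCoeff, pal_natDegree hc, coeff_X_pow_mul', if_pos (by omega),
    this, ← pal_lead hy, leadingCoeff, pal_natDegree hy]

lemma quot {c' x M : ℤ[X]} {d : ℕ} (h : c' * x.reverse = M) (hx : x.coeff 0 ≠ 0)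
    (hd : M.natDegree ≤ d) (htop : M.coeff d ≠ 0) (hM0 : M.coeff 0 ≠ 0) :
    c'.natDegree + x.natDegree = d ∧ Lc c' * Lc x = M.coeff d * M.coeff 0 ∧ c'.coeff 0 ≠ 0 := by
  have hMd : M.natDegree = d := le_antisymm hd (le_natDegree_of_ne_zero htop)
  have hM : M ≠ 0 := by rintro rfl; simp at hM0
  have hc' : c' ≠ 0 := by rintro rfl; simp at h; exact hM h.symm
  have hr : x.reverse ≠ 0 := by
    intro e; rw [e, mul_zero] at h; exact hM h.symm
  refine ⟨?_, ?_, ?_⟩
  · rw [← hMd, ← h, natDegree_mul hc' hr, rev_natDegree hx]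
  · have h1 : M.coeff d = c'.leadingCoeff * x.coeff 0 := by
      rw [← rev_lead hx, ← leadingCoeff_mul, h, leadingCoeff, hMd]
    have h2 : M.coeff 0 = c'.coeff 0 * x.leadingCoeff := by
      rw [← h, mul_coeff_zero, coeff_zero_reverse]
    rw [h1, h2]; unfold Lc; ring
  · intro e
    apply hM0
    rw [← h, mul_coeff_zero, e, zero_mul]

/-! ### Exactness of the division -/

lemma toLaurent_N {k : ℕ} {y c : ℤ[X]} {s : ℤ} (hk : (k : ℤ) = c.natDegree + s - y.natDegree) :
    toLaurent (N k y c) = T (c.natDegree : ℤ) * (T s * symm y + symm c) := by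
  unfold N symm
  rw [map_add, map_mul, map_mul, map_mul, toLaurent_X_pow, toLaurent_reverse, toLaurent_reverse, hk]
  have e : (T ((c.natDegree : ℤ) + s - y.natDegree) : ℤ[T;T⁻¹])
      = T (c.natDegree : ℤ) * T s * T (-(y.natDegree : ℤ)) := by
    rw [← T_add, ← T_add]; congr 1
  have e2 : (T (-(y.natDegree : ℤ)) * T (y.natDegree : ℤ) : ℤ[T;T⁻¹]) = 1 := by
    rw [← T_add]; simp
  rw [e]
  linear_combination (T (c.natDegree : ℤ) * T s * toLaurent y * invert (toLaurent y)) * e2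

lemma isMut_iff {k : ℕ} {x y c c' : ℤ[X]} {s : ℤ}
    (hk : (k : ℤ) = c.natDegree + s - y.natDegree) : IsMut x y c s c' ↔ c' * x.reverse = N k y c := by
  unfold IsMut
  rw [← toLaurent_N hk, toLaurent_inj]

lemma exists_mut {k : ℕ} {x y c : ℤ[X]} {s : ℤ} (hx : x ≠ 0)
    (hk : (k : ℤ) = c.natDegree + s - y.natDegree)
    (hdvd : invert (toLaurent x) ∣ T s * symm y + symm c) : ∃ c' : ℤ[X], IsMut x y c s c' := by
  obtain ⟨g, hg⟩ := hdvd
  obtain ⟨n, f, hf⟩ := exists_T_pow (T ((c.natDegree : ℤ) - x.natDegree) * g)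
  have e2 : (T ((c.natDegree : ℤ) - x.natDegree) * T (x.natDegree : ℤ) : ℤ[T;T⁻¹])
      = T (c.natDegree : ℤ) := by
    rw [← T_add]; simp
  have key : f * x.reverse = X ^ n * N k y c := by
    rw [← toLaurent_inj, map_mul, map_mul, toLaurent_N hk, toLaurent_X_pow, hf, toLaurent_reverse, hg]
    linear_combination (g * T (n : ℤ) * invert (toLaurent x)) * e2
  have hr : ¬ (X : ℤ[X]) ∣ x.reverse := by
    rw [X_dvd_iff, coeff_zero_reverse]
    simpa using hx
  have hd : (X : ℤ[X]) ^ n ∣ f :=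
    Prime.pow_dvd_of_dvd_mul_right prime_X n hr ⟨_, key⟩
  obtain ⟨c', rfl⟩ := hd
  refine ⟨c', (isMut_iff hk).2 ?_⟩
  have : (X : ℤ[X]) ^ n ≠ 0 := pow_ne_zero _ X_ne_zero
  apply mul_left_cancel₀ this
  rw [← key]; ring

lemma mutate_spec {x y c : ℤ[X]} {s : ℤ} (h : ∃ c' : ℤ[X], IsMut x y c s c') :
    IsMut x y c s (mutate x y c s) := by
  unfold mutate
  rw [dif_pos h]
  exact h.choose_spec

/-! ### The invariants -/

section inv
variable {R : Type*} [CommRing R]

/-- the quadratic equation and the three divisibilities attached to a vertex -/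
structure Inv (u v α β γ A B C : R) : Prop where
  Q : A ^ 2 + B ^ 2 + C ^ 2 + (u + v) * (A * B + B * C + C * A) = 3 * (1 + (u + v)) * A * B * C
  d1 : α ∣ C + u * B
  d2 : β ∣ A + u * C
  d3 : γ ∣ B + u * A

lemma Inv.left [IsDomain R] {u v α β γ γ' A B C C' : R} (h : Inv u v α β γ A B C) (huv : u * v = 1)
    (hα : α ∣ A) (hγ : γ ∣ C) (hB : B ≠ 0) (hC : C' * B = (u * A + C) * (v * A + C))
    (hd : γ' ∣ C + u * A) : Inv u v α γ γ' A C C' := by
  have hC' : C' = 3 * (1 + (u + v)) * A * C - (u + v) * (A + C) - B := by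
    apply mul_right_cancel₀ hB
    linear_combination hC + h.Q + A ^ 2 * huv
  refine ⟨?_, ?_, ?_, hd⟩
  · rw [hC']
    linear_combination h.Q
  · have e : C' + u * C = A * (3 * (1 + (u + v)) * C - (u + v)) - v * (C + u * B) := by
      rw [hC']; linear_combination B * huv
    rw [e]
    exact dvd_sub (hα.mul_right _) (h.d1.mul_left _)
  · have e : A + u * C' = C * (u * (3 * (1 + (u + v)) * A - (u + v))) - u * (B + u * A) := by
      rw [hC']; linear_combination (-A) * huv
    rw [e]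
    exact dvd_sub (hγ.mul_right _) (h.d3.mul_left _)

lemma Inv.right [IsDomain R] {u v α β γ γ' A B C C' : R} (h : Inv u v α β γ A B C) (huv : u * v = 1)
    (hβ : β ∣ B) (hγ : γ ∣ C) (hA : A ≠ 0) (hC : C' * A = (v * B + C) * (u * B + C))
    (hd : γ' ∣ C + v * B) : Inv v u β γ γ' B C C' := by
  have hC' : C' = 3 * (1 + (u + v)) * B * C - (u + v) * (B + C) - A := by
    apply mul_right_cancel₀ hA
    linear_combination hC + h.Q + B ^ 2 * huv
  refine ⟨?_, ?_, ?_, hd⟩
  · rw [hC']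
    linear_combination h.Q
  · have e : C' + v * C = B * (3 * (1 + (u + v)) * C - (u + v)) - (A + u * C) := by
      rw [hC']; ring
    rw [e]
    exact dvd_sub (hβ.mul_right _) h.d2
  · have e : B + v * C' = C * (v * (3 * (1 + (u + v)) * B - (u + v))) - v ^ 2 * (B + u * A) := by
      rw [hC']; linear_combination (-B + v * A) * huv
    rw [e]
    exact dvd_sub (hγ.mul_right _) (h.d3.mul_left _)

end inv

lemma dvd_symm (x : ℤ[X]) : toLaurent x ∣ symm x := ⟨_, rfl⟩

/-- consequences of `IsMut` for the symmetrization -/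
lemma isMut_symm {x y c c' : ℤ[X]} {s : ℤ} (h : IsMut x y c s c') :
    symm c' * symm x = (T s * symm y + symm c) * (T (-s) * symm y + symm c) ∧
    toLaurent c' ∣ T s * symm y + symm c := by
  unfold IsMut at h
  rw [map_mul, toLaurent_reverse] at h
  have h2 := congrArg (invert (R := ℤ)) h
  simp only [map_mul, map_add, invert_T, invert_symm, invert_invert'] at h2
  have e1 : (T (c.natDegree : ℤ) * T (-(c.natDegree : ℤ)) : ℤ[T;T⁻¹]) = 1 := by
    rw [← T_add]; simp
  have e2 : (T (x.natDegree : ℤ) * T (-(x.natDegree : ℤ)) : ℤ[T;T⁻¹]) = 1 := by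
    rw [← T_add]; simp
  constructor
  · have h3 : (toLaurent c' * (invert (toLaurent x) * T (x.natDegree : ℤ))) *
        (invert (toLaurent c') * (toLaurent x * T (-(x.natDegree : ℤ)))) =
        (T (c.natDegree : ℤ) * (T s * symm y + symm c)) *
        (T (-(c.natDegree : ℤ)) * (T (-s) * symm y + symm c)) := by rw [h, h2]
    have h4 : (toLaurent c' * (invert (toLaurent x) * T (x.natDegree : ℤ))) *
        (invert (toLaurent c') * (toLaurent x * T (-(x.natDegree : ℤ)))) = symm c' * symm x := by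
      unfold symm
      linear_combination (toLaurent c' * invert (toLaurent x) * invert (toLaurent c') * toLaurent x) * e2
    rw [← h4, h3]
    linear_combination ((T s * symm y + symm c) * (T (-s) * symm y + symm c)) * e1
  · refine ⟨invert (toLaurent x) * T (x.natDegree : ℤ) * T (-(c.natDegree : ℤ)), ?_⟩
    linear_combination (-(T (-(c.natDegree : ℤ)))) * h - (T s * symm y + symm c) * e1

/-! ### Labels -/

/-- the label of a nonconstant entry -/
def Lab' (x : ℤ[X]) (m p : ℕ) : Prop :=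
  ∃ r, p = r + 1 ∧ x.natDegree = m + 2 * r + 1 ∧ Lc x = 2 ^ m * 3 ^ r

def Lab (x : ℤ[X]) (m p : ℕ) : Prop := (x = 1 ∧ m = 1 ∧ p = 0) ∨ Lab' x m p

lemma Lab'.pos {x : ℤ[X]} {m p : ℕ} (h : Lab' x m p) : 0 < Lc x := by
  obtain ⟨r, -, -, h⟩ := h
  rw [h]; positivity

lemma coeff_ne_of_pos {x : ℤ[X]} (h : 0 < Lc x) : x.coeff 0 ≠ 0 := by
  intro e
  unfold Lc at h
  rw [e, mul_zero] at h
  exact lt_irrefl _ h

lemma Lc_one : Lc 1 = 1 := by simp [Lc]

lemma Lab.pos {x : ℤ[X]} {m p : ℕ} (h : Lab x m p) : 0 < Lc x := by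
  rcases h with ⟨rfl, -, -⟩ | h
  · rw [Lc_one]; norm_num
  · exact h.pos

lemma ne_zero_of_pos {x : ℤ[X]} (h : 0 < Lc x) : x ≠ 0 := by
  rintro rfl
  simp [Lc] at h

structure St (m₁ p₁ m₂ p₂ : ℕ) (V : Vtx) : Prop where
  labA : Lab V.a m₁ p₁
  labB : Lab' V.b m₂ p₂
  labC : Lab' V.c (m₁ + m₂) (p₁ + p₂)
  sgn : V.s = 1 ∨ V.s = -1
  inv : Inv (T V.s) (T (-V.s)) (toLaurent V.a) (toLaurent V.b) (toLaurent V.c)
    (symm V.a) (symm V.b) (symm V.c)

/-- generic case of the computation of the label data -/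
lemma mut_generic {x y c c' : ℤ[X]} {s : ℤ} (hx : 0 < Lc x) (hy : 0 < Lc y) (hc : 0 < Lc c)
    (hs : s = 1 ∨ s = -1) (hdeg : y.natDegree + 2 ≤ c.natDegree) (h : IsMut x y c s c') :
    c'.natDegree + x.natDegree = 2 * c.natDegree ∧ Lc c' * Lc x = Lc c * Lc c := by
  obtain ⟨k, hk⟩ : ∃ k : ℕ, (k : ℤ) = c.natDegree + s - y.natDegree :=
    ⟨((c.natDegree : ℤ) + s - y.natDegree).toNat, Int.toNat_of_nonneg (by omega)⟩
  rw [isMut_iff hk] at h
  have hx0 := coeff_ne_of_pos hx
  have hy0 := coeff_ne_of_pos hy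
  have hc0 := coeff_ne_of_pos hc
  have hk1 : 1 ≤ k := by omega
  have hk2 : k + 2 * y.natDegree < 2 * c.natDegree := by omega
  have ht := N_top_lt hy0 hc0 hk2
  have hz := N_zero_pos hk1 y c
  obtain ⟨h1, h2, -⟩ := quot h hx0 (N_le hy0 hc0 hk2.le) (by rw [ht]; exact hc.ne')
    (by rw [hz]; exact hc.ne')
  rw [ht, hz] at h2
  exact ⟨h1, h2⟩

/-- the case `x = 1` for right children -/
lemma mut_special {y c c' : ℤ[X]} {s : ℤ} (hy : 0 < Lc y) (hc : 0 < Lc c)
    (hs : s = 1 ∨ s = -1) (hdeg : c.natDegree = y.natDegree + 1) (h : IsMut 1 y c s c') :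
    c'.natDegree = 2 * c.natDegree ∧ Lc c' = Lc c * (Lc y + Lc c) := by
  obtain ⟨k, hk⟩ : ∃ k : ℕ, (k : ℤ) = c.natDegree + s - y.natDegree :=
    ⟨((c.natDegree : ℤ) + s - y.natDegree).toNat, Int.toNat_of_nonneg (by omega)⟩
  rw [isMut_iff hk] at h
  have hx0 : (1 : ℤ[X]).coeff 0 ≠ 0 := by simp
  have hy0 := coeff_ne_of_pos hy
  have hc0 := coeff_ne_of_pos hc
  rcases hs with rfl | rfl
  · have hk2 : k = 2 := by omega
    subst hk2
    have hk3 : 2 + 2 * y.natDegree = 2 * c.natDegree := by omega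
    have ht := N_top_eq hy0 hc0 hk3
    have hz := N_zero_pos (k := 2) (by norm_num) y c
    obtain ⟨h1, h2, -⟩ := quot h hx0 (N_le hy0 hc0 hk3.le) (by rw [ht]; positivity)
      (by rw [hz]; exact hc.ne')
    rw [ht, hz, Lc_one, mul_one] at h2
    simp only [natDegree_one, add_zero] at h1
    exact ⟨h1, by rw [h2]; ring⟩
  · have hk2 : k = 0 := by omega
    subst hk2
    have hk3 : 0 + 2 * y.natDegree < 2 * c.natDegree := by omega
    have ht := N_top_lt hy0 hc0 hk3
    have hz := N_zero_zero y c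
    obtain ⟨h1, h2, -⟩ := quot h hx0 (N_le hy0 hc0 hk3.le) (by rw [ht]; exact hc.ne')
      (by rw [hz]; positivity)
    rw [ht, hz, Lc_one, mul_one] at h2
    simp only [natDegree_one, add_zero] at h1
    exact ⟨h1, h2⟩

lemma Lab.deg_lt {x c y : ℤ[X]} {m₁ p₁ m₂ p₂ : ℕ} (h : Lab x m₁ p₁) (h2 : Lab' y m₂ p₂)
    (hc : Lab' c (m₁ + m₂) (p₁ + p₂)) :
    x.natDegree + 2 ≤ c.natDegree := by
  obtain ⟨r₂, e2, d2, -⟩ := h2
  obtain ⟨r, e, d, -⟩ := hc
  rcases h with ⟨rfl, rfl, rfl⟩ | ⟨r₁, e1, d1, -⟩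
  · simp only [natDegree_one]; omega
  · omega

lemma St.exists_left {m₁ p₁ m₂ p₂ : ℕ} {V : Vtx} (h : St m₁ p₁ m₂ p₂ V) :
    ∃ c' : ℤ[X], IsMut V.b V.a V.c V.s c' := by
  have hd := h.labA.deg_lt h.labB h.labC
  obtain ⟨k, hk⟩ : ∃ k : ℕ, (k : ℤ) = V.c.natDegree + V.s - V.a.natDegree :=
    ⟨((V.c.natDegree : ℤ) + V.s - V.a.natDegree).toNat,
      Int.toNat_of_nonneg (by rcases h.sgn with e | e <;> omega)⟩
  refine exists_mut (ne_zero_of_pos h.labB.pos) hk ?_
  have h2 := map_dvd (invert (R := ℤ)) h.inv.d2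
  simp only [map_add, map_mul, invert_T, invert_symm] at h2
  have e : (T V.s * symm V.a + symm V.c : ℤ[T;T⁻¹]) = T V.s * (symm V.a + T (-V.s) * symm V.c) := by
    have : (T V.s * T (-V.s) : ℤ[T;T⁻¹]) = 1 := by rw [← T_add]; simp
    linear_combination (-symm V.c) * this
  rw [e]
  exact h2.mul_left _

lemma St.exists_right {m₁ p₁ m₂ p₂ : ℕ} {V : Vtx} (h : St m₁ p₁ m₂ p₂ V) :
    ∃ c' : ℤ[X], IsMut V.a V.b V.c (-V.s) c' := by
  have hd : V.b.natDegree + 1 ≤ V.c.natDegree := by
    obtain ⟨r₂, e2, d2, -⟩ := h.labB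
    obtain ⟨r, e, d, -⟩ := h.labC
    rcases h.labA with ⟨-, e1, e3⟩ | ⟨r₁, e1, d1, -⟩ <;> omega
  obtain ⟨k, hk⟩ : ∃ k : ℕ, (k : ℤ) = V.c.natDegree + -V.s - V.b.natDegree :=
    ⟨((V.c.natDegree : ℤ) + -V.s - V.b.natDegree).toNat,
      Int.toNat_of_nonneg (by rcases h.sgn with e | e <;> omega)⟩
  refine exists_mut (ne_zero_of_pos h.labA.pos) hk ?_
  have h2 := map_dvd (invert (R := ℤ)) h.inv.d1
  simp only [map_add, map_mul, invert_T, invert_symm] at h2
  rwa [add_comm] at h2

lemma TT (s : ℤ) : (T s * T (-s) : ℤ[T;T⁻¹]) = 1 := by rw [← T_add]; simp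

lemma St.left {m₁ p₁ m₂ p₂ : ℕ} {V : Vtx} (h : St m₁ p₁ m₂ p₂ V) :
    St m₁ p₁ (m₁ + m₂) (p₁ + p₂) (child V false) := by
  have hm := mutate_spec h.exists_left
  set c' := mutate V.b V.a V.c V.s with hc'
  have hsym := isMut_symm hm
  have hgen := mut_generic h.labB.pos h.labA.pos h.labC.pos h.sgn
    (h.labA.deg_lt h.labB h.labC) hm
  refine ⟨h.labA, h.labC, ?_, h.sgn, ?_⟩
  · change Lab' c' _ _
    obtain ⟨hdeg, hL⟩ := hgen
    obtain ⟨r₂, e2, d2, L2⟩ := h.labB
    obtain ⟨r, e, d, L⟩ := h.labC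
    rcases h.labA with ⟨ha, rfl, rfl⟩ | ⟨r₁, e1, d1, L1⟩
    · refine ⟨r₂, by omega, by omega, ?_⟩
      have : r = r₂ := by omega
      subst this
      rw [L2, L] at hL
      have hp : (0 : ℤ) < 2 ^ m₂ * 3 ^ r := by positivity
      apply mul_right_cancel₀ hp.ne'
      rw [hL]; ring
    · refine ⟨r₁ + r + 1, by omega, by omega, ?_⟩
      have : r = r₁ + r₂ + 1 := by omega
      subst this
      rw [L2, L] at hL
      have hp : (0 : ℤ) < 2 ^ m₂ * 3 ^ r₂ := by positivity
      apply mul_right_cancel₀ hp.ne'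
      rw [hL]; ring
  · change Inv (T V.s) (T (-V.s)) (toLaurent V.a) (toLaurent V.c) (toLaurent c')
      (symm V.a) (symm V.c) (symm c')
    refine h.inv.left (TT _) (dvd_symm _) (dvd_symm _) (symm_ne (ne_zero_of_pos h.labB.pos))
      hsym.1 ?_
    rw [add_comm]; exact hsym.2

lemma St.right {m₁ p₁ m₂ p₂ : ℕ} {V : Vtx} (h : St m₁ p₁ m₂ p₂ V) :
    St m₂ p₂ (m₁ + m₂) (p₁ + p₂) (child V true) := by
  have hm := mutate_spec h.exists_right
  set c' := mutate V.a V.b V.c (-V.s) with hc'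
  have hsym := isMut_symm hm
  rw [neg_neg] at hsym
  have hsg : -V.s = 1 ∨ -V.s = -1 := by rcases h.sgn with e | e <;> omega
  refine ⟨Or.inr h.labB, h.labC, ?_, hsg, ?_⟩
  · change Lab' c' _ _
    obtain ⟨r₂, e2, d2, L2⟩ := h.labB
    obtain ⟨r, e, d, L⟩ := h.labC
    rcases h.labA with ⟨ha, rfl, rfl⟩ | ⟨r₁, e1, d1, L1⟩
    · rw [ha] at hm
      obtain ⟨hdeg, hL⟩ := mut_special h.labB.pos h.labC.pos hsg (by omega) hm
      refine ⟨2 * r₂ + 1, by omega, by omega, ?_⟩
      have : r = r₂ := by omega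
      subst this
      rw [L2, L] at hL
      rw [hL]; ring
    · have hgen := mut_generic h.labA.pos h.labB.pos h.labC.pos hsg (by omega) hm
      obtain ⟨hdeg, hL⟩ := hgen
      refine ⟨r₂ + r + 1, by omega, by omega, ?_⟩
      have : r = r₁ + r₂ + 1 := by omega
      subst this
      rw [L1, L] at hL
      have hp : (0 : ℤ) < 2 ^ m₁ * 3 ^ r₁ := by positivity
      apply mul_right_cancel₀ hp.ne'
      rw [hL]; ring
  · change Inv (T (-V.s)) (T (- -V.s)) (toLaurent V.b) (toLaurent V.c) (toLaurent c')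
      (symm V.b) (symm V.c) (symm c')
    rw [neg_neg]
    refine h.inv.right (TT _) (dvd_symm _) (dvd_symm _) (symm_ne (ne_zero_of_pos h.labA.pos))
      hsym.1 ?_
    rw [add_comm]; exact hsym.2

/-! ### The root -/

lemma symm_root_b : symm (1 + X) = 2 + T 1 + T (-1) := by
  unfold symm
  simp only [map_add, map_one, toLaurent_X, invert_T]
  linear_combination TT 1

lemma toLaurent_c : toLaurent (1 + 2 * X + 2 * X ^ 2 : ℤ[X]) = 1 + 2 * T 1 + 2 * T 1 ^ 2 := by
  have h2 : toLaurent (2 : ℤ[X]) = 2 := map_ofNat _ 2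
  rw [map_add, map_add, map_mul, map_mul, map_pow, toLaurent_X, h2, map_one]

lemma symm_root_c : symm (1 + 2 * X + 2 * X ^ 2) =
    (1 + 2 * T 1 + 2 * T 1 ^ 2) * (1 + 2 * T (-1) + 2 * T (-1) ^ 2) := by
  have h2 : (invert (R := ℤ)) (2 : ℤ[T;T⁻¹]) = 2 := map_ofNat _ 2
  unfold symm
  rw [toLaurent_c]
  simp only [map_add, map_one, map_mul, map_pow, invert_T, h2]

lemma root_St : St 1 0 0 1 root := by
  have hd : (1 + 2 * X + 2 * X ^ 2 : ℤ[X]).natDegree = 2 := by
    compute_degree!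
  have hd1 : (1 + X : ℤ[X]).natDegree = 1 := by
    compute_degree!
  refine ⟨Or.inl ⟨rfl, rfl, rfl⟩, ⟨0, rfl, hd1, ?_⟩, ⟨0, rfl, hd, ?_⟩, Or.inl rfl, ?_⟩
  · change Lc (1 + X) = _
    unfold Lc
    rw [leadingCoeff, hd1]
    simp [coeff_one, coeff_X]
  · change Lc (1 + 2 * X + 2 * X ^ 2) = _
    unfold Lc
    rw [leadingCoeff, hd]
    have e2 : (2 : ℤ[X]) = Polynomial.C 2 := rfl
    rw [e2]
    simp [coeff_one, coeff_X]
  · change Inv (T 1) (T (-1)) (toLaurent 1) (toLaurent (1 + X)) (toLaurent (1 + 2 * X + 2 * X ^ 2))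
      (symm 1) (symm (1 + X)) (symm (1 + 2 * X + 2 * X ^ 2))
    have hs1 : symm 1 = 1 := by simp [symm]
    have h := TT 1
    rw [hs1, symm_root_b, symm_root_c, toLaurent_c]
    set u : ℤ[T;T⁻¹] := T 1
    set v : ℤ[T;T⁻¹] := T (-1)
    have hC : (1 + 2 * u + 2 * u ^ 2) * (1 + 2 * v + 2 * v ^ 2)
        = 5 + 6 * (u + v) + 2 * (u + v) ^ 2 := by
      linear_combination (4 + 4 * v + 4 * u + 4 * (u * v + 1) - 4) * h
    refine ⟨?_, ?_, ?_, ?_⟩
    · rw [hC]; ring
    · rw [map_one]; exact one_dvd _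
    · refine ⟨2 * v + 5 + 4 * u + 2 * u ^ 2, ?_⟩
      have hb : toLaurent (1 + X : ℤ[X]) = 1 + u := by
        rw [map_add, map_one, toLaurent_X]
      rw [hC, hb]
      linear_combination (4 + 4 * u + 2 * v) * h
    · refine ⟨v, ?_⟩
      linear_combination (-2 - 2 * u) * h

/-! ### Addresses -/

/-- the label vector of the vertex with address `w` -/
def lab : List Bool → ℕ × ℕ
  | [] => (1, 1)
  | false :: w => ((lab w).1 + (lab w).2, (lab w).2)
  | true :: w => ((lab w).2, (lab w).1 + (lab w).2)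

lemma lab_pos (w : List Bool) : 1 ≤ (lab w).1 ∧ 1 ≤ (lab w).2 := by
  induction w with
  | nil => simp [lab]
  | cons d w ih => cases d <;> simp only [lab] <;> omega

lemma lab_injective : Function.Injective lab := by
  intro w
  induction w with
  | nil =>
    intro w' h
    cases w' with
    | nil => rfl
    | cons d w' =>
      have := lab_pos w'
      cases d <;> simp only [lab, Prod.mk.injEq] at h <;> omega
  | cons d w ih =>
    intro w' h
    have hw := lab_pos w
    cases w' with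
    | nil => cases d <;> simp only [lab, Prod.mk.injEq] at h <;> omega
    | cons d' w' =>
      have hw' := lab_pos w'
      cases d <;> cases d' <;> simp only [lab, Prod.mk.injEq] at h
      · rw [@ih w' (Prod.ext (by omega) (by omega))]
      · omega
      · omega
      · rw [@ih w' (Prod.ext (by omega) (by omega))]

lemma St.foldl (w : List Bool) : ∀ {m₁ p₁ m₂ p₂ : ℕ} {V : Vtx}, St m₁ p₁ m₂ p₂ V →
    (∃ m₁' p₁' m₂' p₂', St m₁' p₁' m₂' p₂' (w.foldl child V)) ∧
    Lab' (w.foldl child V).c ((lab w).1 * m₁ + (lab w).2 * m₂) ((lab w).1 * p₁ + (lab w).2 * p₂) := by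
  induction w with
  | nil =>
    intro m₁ p₁ m₂ p₂ V h
    refine ⟨⟨_, _, _, _, h⟩, ?_⟩
    simpa [lab] using h.labC
  | cons d w ih =>
    intro m₁ p₁ m₂ p₂ V h
    cases d with
    | false =>
      obtain ⟨h1, h2⟩ := ih h.left
      refine ⟨h1, ?_⟩
      simp only [List.foldl_cons, lab]
      convert h2 using 1 <;> ring
    | true =>
      obtain ⟨h1, h2⟩ := ih h.right
      refine ⟨h1, ?_⟩
      simp only [List.foldl_cons, lab]
      convert h2 using 1 <;> ring

lemma vertex_St (w : List Bool) : ∃ m₁ p₁ m₂ p₂, St m₁ p₁ m₂ p₂ (vertex w) :=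
  (St.foldl w root_St).1

lemma vertex_lab (w : List Bool) : Lab' (vertex w).c (lab w).1 (lab w).2 := by
  have := (St.foldl w root_St).2
  simpa [vertex] using this

lemma val_eq {m r m' r' : ℕ} (h : (2 : ℤ) ^ m * 3 ^ r = 2 ^ m' * 3 ^ r') : m = m' ∧ r = r' := by
  have h' : (2 : ℕ) ^ m * 3 ^ r = 2 ^ m' * 3 ^ r' := by exact_mod_cast h
  have h2 := congrArg (fun n => n.factorization 2) h'
  have h3 := congrArg (fun n => n.factorization 3) h'
  have f23 : Nat.factorization 2 3 = 0 := by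
    rw [Nat.Prime.factorization Nat.prime_two]; simp
  have f32 : Nat.factorization 3 2 = 0 := by
    rw [Nat.Prime.factorization Nat.prime_three]; simp
  have f22 : Nat.factorization 2 2 = 1 := by
    rw [Nat.Prime.factorization Nat.prime_two]; simp
  have f33 : Nat.factorization 3 3 = 1 := by
    rw [Nat.Prime.factorization Nat.prime_three]; simp
  have p2 : ∀ k, (2 : ℕ) ^ k ≠ 0 := fun k => by positivity
  have p3 : ∀ k, (3 : ℕ) ^ k ≠ 0 := fun k => by positivity
  simp only [Nat.factorization_mul (p2 _) (p3 _), Nat.factorization_pow, Finsupp.add_apply,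
    Finsupp.smul_apply, smul_eq_mul, f23, f32, f22, f33, mul_one, mul_zero, add_zero,
    zero_add] at h2 h3
  exact ⟨h2, h3⟩

/-- **MP_6870a6_co, Q1 (positive answer).**  All divisions prescribed by the sign rule are exact, so
`vertex` is the mirror Markov tree below `t₀`; the third entry of each of its triples is the one of
largest degree; and no two distinct vertices of the tree have the same maximum. -/
theorem result :
    (∀ w : List Bool,
      IsMut (vertex w).b (vertex w).a (vertex w).c (vertex w).s (vertex (w ++ [false])).c ∧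
      IsMut (vertex w).a (vertex w).b (vertex w).c (-(vertex w).s) (vertex (w ++ [true])).c ∧
      (vertex w).a ≠ 0 ∧ (vertex w).b ≠ 0 ∧
      (vertex w).a.natDegree < (vertex w).c.natDegree ∧
      (vertex w).b.natDegree < (vertex w).c.natDegree) ∧
    Function.Injective maxOf := by
  refine ⟨fun w => ?_, ?_⟩
  · obtain ⟨m₁, p₁, m₂, p₂, h⟩ := vertex_St w
    have e : ∀ d, vertex (w ++ [d]) = child (vertex w) d := by
      intro d; unfold vertex; rw [List.foldl_append]; rfl
    rw [e, e]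
    refine ⟨mutate_spec h.exists_left, mutate_spec h.exists_right, ne_zero_of_pos h.labA.pos,
      ne_zero_of_pos h.labB.pos, ?_, ?_⟩
    · have := h.labA.deg_lt h.labB h.labC
      omega
    · obtain ⟨r₂, e2, d2, -⟩ := h.labB
      obtain ⟨r, e, d, -⟩ := h.labC
      rcases h.labA with ⟨-, e1, e3⟩ | ⟨r₁, e1, d1, -⟩ <;> omega
  · have hd1 : (1 + X : ℤ[X]).natDegree = 1 := by
      compute_degree!
    have hbig : ∀ w, 2 ≤ (vertex w).c.natDegree := by
      intro w
      obtain ⟨r, -, d, -⟩ := vertex_lab w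
      have := lab_pos w
      omega
    intro v v' hv
    have hdeg := congrArg natDegree hv
    rcases v with _ | _ | w <;> rcases v' with _ | _ | w'
    · rfl
    · exfalso
      change (1 : ℤ[X]).natDegree = (1 + X : ℤ[X]).natDegree at hdeg
      rw [hd1, natDegree_one] at hdeg; omega
    · exfalso
      change (1 : ℤ[X]).natDegree = (vertex w').c.natDegree at hdeg
      have := hbig w'
      rw [natDegree_one] at hdeg; omega
    · exfalso
      change (1 + X : ℤ[X]).natDegree = (1 : ℤ[X]).natDegree at hdeg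
      rw [hd1, natDegree_one] at hdeg; omega
    · rfl
    · exfalso
      change (1 + X : ℤ[X]).natDegree = (vertex w').c.natDegree at hdeg
      have := hbig w'
      rw [hd1] at hdeg; omega
    · exfalso
      change (vertex w).c.natDegree = (1 : ℤ[X]).natDegree at hdeg
      have := hbig w
      rw [natDegree_one] at hdeg; omega
    · exfalso
      change (vertex w).c.natDegree = (1 + X : ℤ[X]).natDegree at hdeg
      have := hbig w
      rw [hd1] at hdeg; omega
    · change (vertex w).c = (vertex w').c at hv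
      obtain ⟨r, e, d, L⟩ := vertex_lab w
      obtain ⟨r', e', d', L'⟩ := vertex_lab w'
      have hL : (2 : ℤ) ^ (lab w).1 * 3 ^ r = 2 ^ (lab w').1 * 3 ^ r' := by
        rw [← L, ← L', hv]
      obtain ⟨h1, h2⟩ := val_eq hL
      rw [lab_injective (Prod.ext h1 (by omega) : lab w = lab w')]

end Pool.Agent.Results.MP_6870a6_co.MirrorTree
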